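import Pool.Agent.LSG.StmtsF

/-!
# Row THN of squad LSN: a continuous bound for the levels (edit of Helper92_LSG/THE.lean)
-/

set_option autoImplicit false

open Set Topology Filter

namespace Pool.Agent.LSN.H21

open Pool.Agent.LSG

/-- **Row THN** -/
theorem thn (hq : QmnStmt) : ThnStmt := by
  intro H _ _ _ _ L hL V χ l ξ hP N
  obtain ⟨-, -, -, -, hξ, hloc⟩ := hP
  have hmet : TopologicalSpace.MetrizableSpace (H ⧸ L) := hq H L hL
  letI : MetricSpace (H ⧸ L) := TopologicalSpace.metrizableSpaceMetric (H ⧸ L)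
  have hact : ∀ m h, ∀ z ∈ L, ActN L χ m (h * z) → ActN L χ m h := by
    rintro m h z hz ⟨z', hz', h1⟩
    refine ⟨z * z', L.mul_mem hz hz', ?_⟩
    rwa [← mul_assoc]
  obtain ⟨t, ht⟩ : ∃ t : H ⧸ L → Set ℝ, ∀ q r, r ∈ t q ↔ ∀ h : H, (h : H ⧸ L) = q →
      ∀ m m', ActN L χ m h → ActN L χ m' h → (N (ξ m h) (ξ m' h) : ℝ) ≤ r :=
    ⟨fun q => {r | ∀ h : H, (h : H ⧸ L) = q →
      ∀ m m', ActN L χ m h → ActN L χ m' h → (N (ξ m h) (ξ m' h) : ℝ) ≤ r}, fun _ _ => Iff.rfl⟩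
  have hconv : ∀ q, Convex ℝ (t q) := by
    intro q r hr r' hr' a b ha hb hab
    rw [ht] at hr hr' ⊢
    intro h hh m m' hm hm'
    have h1 := hr h hh m m' hm hm'
    have h2 := hr' h hh m m' hm hm'
    have h3 : (N (ξ m h) (ξ m' h) : ℝ) = a * N (ξ m h) (ξ m' h) + b * N (ξ m h) (ξ m' h) := by
      rw [← add_mul, hab, one_mul]
    rw [smul_eq_mul, smul_eq_mul, h3]
    exact add_le_add (mul_le_mul_of_nonneg_left h1 ha) (mul_le_mul_of_nonneg_left h2 hb)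
  have hlc : ∀ q : H ⧸ L, ∃ c : ℝ, ∀ᶠ q' in 𝓝 q, c ∈ t q' := by
    intro q
    obtain ⟨h₀, rfl⟩ := QuotientGroup.mk_surjective q
    obtain ⟨W, hW, hfin⟩ := hloc h₀
    obtain ⟨F, hF⟩ : ∃ F : Set H, F = {x : H | ∃ m, ∃ h' ∈ W, ActN L χ m h' ∧ ξ m h' = x} :=
      ⟨_, rfl⟩
    rw [← hF] at hfin
    obtain ⟨c, hc⟩ := ((hfin.prod hfin).image (fun p => (N p.1 p.2 : ℝ))).bddAbove
    refine ⟨c, ?_⟩
    have h1 : (QuotientGroup.mk : H → H ⧸ L) '' W ∈ 𝓝 (h₀ : H ⧸ L) :=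
      QuotientGroup.isOpenMap_coe.image_mem_nhds hW
    filter_upwards [h1] with q' hq'
    obtain ⟨h', hh', rfl⟩ := hq'
    rw [ht]
    intro h hh m m' hm hm'
    have hz : h'⁻¹ * h ∈ L := QuotientGroup.eq.1 hh.symm
    have he : h = h' * (h'⁻¹ * h) := by group
    rw [he] at hm hm' ⊢
    have hm1 := hact m h' _ hz hm
    have hm2 := hact m' h' _ hz hm'
    rw [hξ m h' _ hz, hξ m' h' _ hz]
    apply hc
    refine ⟨(ξ m h', ξ m' h'), ⟨?_, ?_⟩, rfl⟩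
    · rw [hF]
      exact ⟨m, h', hh', hm1, rfl⟩
    · rw [hF]
      exact ⟨m', h', hh', hm2, rfl⟩
  obtain ⟨θ₀, hθ⟩ := exists_continuous_forall_mem_convex_of_local_const hconv hlc
  refine ⟨θ₀.comp ⟨fun h : H => (h : H ⧸ L), QuotientGroup.continuous_mk⟩, ?_, ?_⟩
  · intro h z hz
    show θ₀ ((h * z : H) : H ⧸ L) = θ₀ (h : H ⧸ L)
    congr 1
    rw [QuotientGroup.eq]
    have : (h * z)⁻¹ * h = z⁻¹ := by group
    rw [this]
    exact L.inv_mem hz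
  · intro h m m' hm hm'
    exact (ht _ _).1 (hθ (h : H ⧸ L)) h rfl m m' hm hm'

end Pool.Agent.LSN.H21
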